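import Mathlib

namespace Pool.Agent.Results.MP_2928c2_al.NoFiniteMonoid

/-! ### The grammic monoid -/

/-- `s` is a weakly increasing subsequence of `w` with all letters between `p` and `q`. -/
def IsIncSub {n : ℕ} (p q : Fin n) (w s : List (Fin n)) : Prop :=
  s.Sublist w ∧ s.Pairwise (· ≤ ·) ∧ ∀ x ∈ s, p ≤ x ∧ x ≤ q

/-- The largest length of a weakly increasing subsequence of `w` with letters in `[p, q]`. -/
noncomputable def ell {n : ℕ} (p q : Fin n) (w : List (Fin n)) : ℕ :=
  sSup {k | ∃ s, IsIncSub p q w s ∧ s.length = k}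

theorem bdd {n : ℕ} (p q : Fin n) (w : List (Fin n)) :
    BddAbove {k | ∃ s, IsIncSub p q w s ∧ s.length = k} :=
  ⟨w.length, by rintro k ⟨s, hs, rfl⟩; exact hs.1.length_le⟩

theorem le_ell {n : ℕ} {p q : Fin n} {w s : List (Fin n)} (h : IsIncSub p q w s) :
    s.length ≤ ell p q w := le_csSup (bdd p q w) ⟨s, h, rfl⟩

theorem exists_ell {n : ℕ} (p q : Fin n) (w : List (Fin n)) :
    ∃ s, IsIncSub p q w s ∧ s.length = ell p q w :=
  Nat.sSup_mem (s := {k | ∃ s, IsIncSub p q w s ∧ s.length = k})
    ⟨0, [], ⟨List.nil_sublist w, List.Pairwise.nil, by simp⟩, rfl⟩ (bdd p q w)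

theorem ell_append_le {n : ℕ} {u v u' v' : List (Fin n)}
    (hu : ∀ p q : Fin n, p ≤ q → ell p q u = ell p q u')
    (hv : ∀ p q : Fin n, p ≤ q → ell p q v = ell p q v') (p q : Fin n) (hpq : p ≤ q) :
    ell p q (u ++ v) ≤ ell p q (u' ++ v') := by
  obtain ⟨s, ⟨hsub, hsort, hrange⟩, hlen⟩ := exists_ell p q (u ++ v)
  rw [← hlen]
  obtain ⟨s1, s2, rfl, h1, h2⟩ := List.sublist_append_iff.mp hsub
  rw [List.pairwise_append] at hsort
  obtain ⟨hs1, hs2, h12⟩ := hsort
  -- choose the breaking letter
  obtain ⟨r, hpr, hrq, hr1, hr2⟩ : ∃ r : Fin n, p ≤ r ∧ r ≤ q ∧ (∀ x ∈ s1, x ≤ r) ∧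
      (∀ x ∈ s2, r ≤ x) := by
    rcases List.eq_nil_or_concat s1 with rfl | ⟨t, r, rfl⟩
    · exact ⟨p, le_refl _, hpq, by simp, fun x hx => (hrange x (by simp [hx])).1⟩
    · refine ⟨r, (hrange r (by simp)).1, (hrange r (by simp)).2, ?_, ?_⟩
      · intro x hx
        rw [List.concat_eq_append, List.pairwise_append] at hs1
        rw [List.concat_eq_append, List.mem_append] at hx
        rcases hx with hx | hx
        · exact hs1.2.2 x hx r (by simp)
        · rw [List.mem_singleton] at hx
          rw [hx]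
      · intro x hx
        exact h12 r (by simp) x hx
  have hl1 : s1.length ≤ ell p r u' := by
    rw [← hu p r hpr]
    exact le_ell ⟨h1, hs1, fun x hx => ⟨(hrange x (by simp [hx])).1, hr1 x hx⟩⟩
  have hl2 : s2.length ≤ ell r q v' := by
    rw [← hv r q hrq]
    exact le_ell ⟨h2, hs2, fun x hx => ⟨hr2 x hx, (hrange x (by simp [hx])).2⟩⟩
  obtain ⟨t1, ⟨g1, g1', g1''⟩, e1⟩ := exists_ell p r u'
  obtain ⟨t2, ⟨g2, g2', g2''⟩, e2⟩ := exists_ell r q v'
  have : (t1 ++ t2).length ≤ ell p q (u' ++ v') := by
    refine le_ell ⟨g1.append g2, ?_, ?_⟩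
    · rw [List.pairwise_append]
      exact ⟨g1', g2', fun a ha b hb => le_trans (g1'' a ha).2 (g2'' b hb).1⟩
    · intro x hx
      rw [List.mem_append] at hx
      rcases hx with hx | hx
      · exact ⟨(g1'' x hx).1, le_trans (g1'' x hx).2 hrq⟩
      · exact ⟨le_trans hpr (g2'' x hx).1, (g2'' x hx).2⟩
  rw [List.length_append] at this ⊢
  omega

/-- The grammic congruence on the free monoid over `n` letters. -/
def grammicCon (n : ℕ) : Con (FreeMonoid (Fin n)) where
  r u v := ∀ p q : Fin n, p ≤ q → ell p q (FreeMonoid.toList u) = ell p q (FreeMonoid.toList v)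
  iseqv := ⟨fun _ _ _ _ => rfl, fun h p q hpq => (h p q hpq).symm,
    fun h1 h2 p q hpq => (h1 p q hpq).trans (h2 p q hpq)⟩
  mul' := by
    intro w x y z h1 h2 p q hpq
    rw [FreeMonoid.toList_mul, FreeMonoid.toList_mul]
    exact le_antisymm (ell_append_le h1 h2 p q hpq)
      (ell_append_le (fun p q h => (h1 p q h).symm) (fun p q h => (h2 p q h).symm) p q hpq)

/-- The grammic monoid of rank `n`. -/
abbrev Grammic (n : ℕ) : Type := (grammicCon n).Quotient

/-! ### Identities and varieties of semigroups -/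

/-- A semigroup identity: a pair of non-empty words. -/
abbrev Ident : Type := FreeSemigroup ℕ × FreeSemigroup ℕ

/-- The identity `e` holds in the semigroup `S`. -/
def Holds (S : Type) [Semigroup S] (e : Ident) : Prop :=
  ∀ f : ℕ → S, FreeSemigroup.lift f e.1 = FreeSemigroup.lift f e.2

/-- A class of semigroups. -/
abbrev SgClass : Type 1 := (T : Type) → Semigroup T → Prop

/-- The variety generated by `S`: all semigroups satisfying every identity of `S`. -/
def varOf (S : Type) [Semigroup S] : SgClass := fun T _ => ∀ e : Ident, Holds S e → Holds T e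

/-- The class of commutative semigroups. -/
def Com : SgClass := fun T _ => ∀ a b : T, a * b = b * a

/-- A variety: the class of all semigroups satisfying some set of identities. -/
def IsVariety (V : SgClass) : Prop :=
  ∃ E : Set Ident, ∀ (T : Type) (i : Semigroup T), V T i ↔ ∀ e ∈ E, Holds T e

/-- The join: a semigroup belongs to it when it belongs to every variety containing both
classes. -/
def join (U W : SgClass) : SgClass := fun T i =>
  ∀ V : SgClass, IsVariety V → (∀ T' i', U T' i' → V T' i') → (∀ T' i', W T' i' → V T' i') → V T i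

/-! ### The identity -/

/-- The power with exponent `k + 1`. -/
def pw {S : Type} [Semigroup S] (a : S) : ℕ → S
  | 0 => a
  | (k + 1) => pw a k * a

theorem pw_map {S T : Type} [Semigroup S] [Semigroup T] (f : S →ₙ* T) (a : S) (k : ℕ) :
    f (pw a k) = pw (f a) k := by
  induction k with
  | zero => rfl
  | succ k ih => show f (pw a k * a) = _; rw [map_mul, ih]; rfl

theorem pw_eq_pow {M : Type} [Monoid M] (a : M) (k : ℕ) : pw a k = a ^ (k + 1) := by
  induction k with
  | zero => simp [pw]
  | succ k ih => show pw a k * a = _; rw [ih, ← pow_succ]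

/-- The identity `x^(j+1) y x^(i+1) = x^(i+1) y x^(j+1)`. -/
def idn (i j : ℕ) : Ident :=
  (pw (FreeSemigroup.of 0) j * FreeSemigroup.of 1 * pw (FreeSemigroup.of 0) i,
    pw (FreeSemigroup.of 0) i * FreeSemigroup.of 1 * pw (FreeSemigroup.of 0) j)

theorem holds_idn_iff (S : Type) [Semigroup S] (i j : ℕ) :
    Holds S (idn i j) ↔ ∀ x y : S, pw x j * y * pw x i = pw x i * y * pw x j := by
  constructor
  · intro h x y
    have := h (fun k => if k = 0 then x else y)
    simpa [idn, map_mul, pw_map, FreeSemigroup.lift_of] using this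
  · intro h f
    simp only [idn, map_mul, pw_map, FreeSemigroup.lift_of]
    exact h _ _

theorem pow_list {n : ℕ} (a : Fin n) (k : ℕ) :
    FreeMonoid.toList ((FreeMonoid.of a) ^ k) = List.replicate k a := by
  induction k with
  | zero => rfl
  | succ k ih => rw [pow_succ, FreeMonoid.toList_mul, ih, List.replicate_succ']; rfl

theorem not_holds_grammic (n : ℕ) (hn : 2 ≤ n) (i j : ℕ) (hij : i < j) :
    ¬ Holds (Grammic n) (idn i j) := by
  rw [holds_idn_iff]
  intro h
  let a : Fin n := ⟨0, by omega⟩
  let b : Fin n := ⟨1, by omega⟩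
  have hab : a ≤ b := by simp [a, b, Fin.le_def]
  have hab' : ¬ b ≤ a := by simp [a, b, Fin.le_def]
  set N := i + j + 5 with hN
  have h1 := h ((grammicCon n).mk' (FreeMonoid.of a)) ((grammicCon n).mk' (FreeMonoid.of b ^ N))
  rw [pw_eq_pow, pw_eq_pow, ← map_pow, ← map_pow, ← map_mul, ← map_mul, ← map_mul, ← map_mul] at h1
  have h2 : (grammicCon n) _ _ := (Con.eq _).mp h1
  have h3 := h2 a b hab
  simp only [FreeMonoid.toList_mul, pow_list] at h3
  have h4 : (List.replicate (j + 1) a ++ List.replicate N b).length ≤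
      ell a b (List.replicate (j + 1) a ++ List.replicate N b ++ List.replicate (i + 1) a) := by
    refine le_ell ⟨List.sublist_append_left _ _, ?_, ?_⟩
    · rw [List.pairwise_append]
      refine ⟨?_, ?_, ?_⟩
      · simp [List.pairwise_replicate]
      · simp [List.pairwise_replicate]
      · intro x hx y hy
        rw [List.eq_of_mem_replicate hx, List.eq_of_mem_replicate hy]
        exact hab
    · intro x hx
      rw [List.mem_append] at hx
      rcases hx with hx | hx <;> rw [List.eq_of_mem_replicate hx]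
      · exact ⟨le_refl _, hab⟩
      · exact ⟨hab, le_refl _⟩
  rw [h3] at h4
  obtain ⟨s, ⟨g1, g2, g3⟩, g4⟩ := exists_ell a b
    (List.replicate (i + 1) a ++ List.replicate N b ++ List.replicate (j + 1) a)
  rw [← g4] at h4
  obtain ⟨s', s3, rfl, k1, k2⟩ := List.sublist_append_iff.mp g1
  obtain ⟨s1, s2, rfl, k3, k4⟩ := List.sublist_append_iff.mp k1
  obtain ⟨c1, hc1, rfl⟩ := List.sublist_replicate_iff.mp k3
  obtain ⟨c2, hc2, rfl⟩ := List.sublist_replicate_iff.mp k4
  obtain ⟨c3, hc3, rfl⟩ := List.sublist_replicate_iff.mp k2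
  simp only [List.length_append, List.length_replicate] at h4
  rcases Nat.eq_zero_or_pos c2 with hc | hc
  · omega
  · rcases Nat.eq_zero_or_pos c3 with hc' | hc'
    · omega
    · rw [List.pairwise_append] at g2
      apply hab'
      apply g2.2.2 b _ a _
      · rw [List.mem_append]
        right
        rw [List.mem_replicate]
        exact ⟨hc.ne', rfl⟩
      · rw [List.mem_replicate]
        exact ⟨hc'.ne', rfl⟩

theorem exists_holds_finite (F : Type) [Monoid F] [Finite F] :
    ∃ i j : ℕ, i < j ∧ Holds F (idn i j) := by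
  obtain ⟨i, j, hij, h⟩ := Finite.exists_ne_map_eq_of_infinite (fun k : ℕ => fun a : F => pw a k)
  wlog hlt : i < j generalizing i j
  · exact this j i hij.symm h.symm (lt_of_le_of_ne (not_lt.mp hlt) hij.symm)
  refine ⟨i, j, hlt, ?_⟩
  rw [holds_idn_iff]
  intro x y
  have h' : pw x i = pw x j := congrFun h x
  rw [h']

theorem com_holds (T : Type) (i : Semigroup T) (hT : Com T i) (k l : ℕ) : Holds T (idn k l) := by
  rw [holds_idn_iff]
  intro x y
  rw [hT (pw x l * y) (pw x k), hT (pw x l) y, mul_assoc]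

theorem result (n : ℕ) (hn : 2 ≤ n) (F : Type) [Monoid F] [Finite F] :
    varOf (Grammic n) ≠ varOf F ∧ varOf (Grammic n) ≠ join (varOf F) Com := by
  obtain ⟨i, j, hij, hF⟩ := exists_holds_finite F
  have hG := not_holds_grammic n hn i j hij
  have hself : varOf (Grammic n) (Grammic n) inferInstance := fun e he => he
  constructor
  · intro h
    rw [h] at hself
    exact hG (hself _ hF)
  · intro h
    rw [h] at hself
    have hV := hself (fun T _ => Holds T (idn i j)) ⟨{idn i j}, fun T _ => by simp⟩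
      (fun T' i' hT' => hT' _ hF) (fun T' i' hT' => com_holds T' i' hT' i j)
    exact hG hV

end Pool.Agent.Results.MP_2928c2_al.NoFiniteMonoid
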